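import Mathlib

set_option autoImplicit false

namespace Pool.Agent.Results.MP_cd59f5_co.Antisymmetry

open Finset

/-- `M` is a perfect matching of the complete graph on `Fin n`, given by the map sending each
vertex to its partner. -/
def IsPM {n : ℕ} (M : Fin n → Fin n) : Prop := ∀ v, M (M v) = v ∧ M v ≠ v

/-- `d` can realize `M`: some graph on `Fin n` has degree `d v` at each `v` and contains all
edges of `M`. -/
def Realizes {n : ℕ} (d : Fin n → ℕ) (M : Fin n → Fin n) : Prop :=
  ∃ G : SimpleGraph (Fin n), (∀ v, (G.neighborSet v).ncard = d v) ∧ ∀ v, G.Adj v (M v)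

/-- `N ≼ M`: every non-increasing sequence of positive integers that can realize `M` can
realize `N`. -/
def Below {n : ℕ} (N M : Fin n → Fin n) : Prop :=
  ∀ d : Fin n → ℕ, Antitone d → (∀ v, 1 ≤ d v) → Realizes d M → Realizes d N

/-- An even set carries a fixed point free involution. -/
theorem pairing {α : Type} [DecidableEq α] (k : ℕ) : ∀ Q : Finset α, Q.card = k + k →
    ∃ P : α → α, (∀ x, P (P x) = x) ∧ ∀ x, P x ≠ x ↔ x ∈ Q := by
  induction k with
  | zero =>
    intro Q hQ
    refine ⟨id, fun x => rfl, fun x => ?_⟩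
    rw [card_eq_zero.1 hQ]
    simp
  | succ k ih =>
    intro Q hQ
    obtain ⟨x, hx, y, hy, hxy⟩ := one_lt_card.1 (show 1 < Q.card by omega)
    obtain ⟨P, hP1, hP2⟩ := ih ((Q.erase x).erase y) (by
      rw [card_erase_of_mem (mem_erase.2 ⟨hxy.symm, hy⟩), card_erase_of_mem hx]
      omega)
    have hPx : P x = x := by
      by_contra h
      have := (hP2 x).1 h
      simp at this
    have hPy : P y = y := by
      by_contra h
      have := (hP2 y).1 h
      simp at this
    have hne : ∀ z, z ≠ x → z ≠ y → P z ≠ x ∧ P z ≠ y := by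
      intro z hzx hzy
      constructor
      · intro h
        apply hzx
        rw [← hP1 z, h, hPx]
      · intro h
        apply hzy
        rw [← hP1 z, h, hPy]
    refine ⟨fun z => if z = x then y else if z = y then x else P z, fun z => ?_, fun z => ?_⟩
    · by_cases h1 : z = x
      · simp [h1, hxy.symm]
      · by_cases h2 : z = y
        · simp [h2, hxy.symm]
        · have := hne z h1 h2
          simp [h1, h2, this.1, this.2, hP1]
    · by_cases h1 : z = x
      · simp [h1, hxy.symm, hx]
      · by_cases h2 : z = y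
        · simp [h2, hxy.symm, hxy, hy]
        · have h3 := hP2 z
          simp only [h1, h2, if_false]
          rw [h3, mem_erase, mem_erase]
          tauto

/-- The number of vertices `v ≥ t` with partner less than `s`. -/
def F {n : ℕ} (M : Fin n → Fin n) (s t : ℕ) : ℕ :=
  (univ.filter fun v : Fin n => t ≤ v.1 ∧ (M v).1 < s).card

theorem card_lt {n : ℕ} (s : ℕ) (h : s ≤ n) :
    (univ.filter fun u : Fin n => u.1 < s).card = s := by
  have h1 : (univ.filter fun u : Fin n => u.1 < s).map Fin.valEmbedding = range s := by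
    ext x
    simp only [mem_map, mem_filter, mem_univ, true_and, Fin.valEmbedding_apply, mem_range]
    constructor
    · rintro ⟨u, hu, rfl⟩
      exact hu
    · intro hx
      exact ⟨⟨x, by omega⟩, hx, rfl⟩
  rw [← card_map Fin.valEmbedding, h1, card_range]

/-- The graph of the construction. -/
def cg {n : ℕ} (M P : Fin n → Fin n) (s t : ℕ) : SimpleGraph (Fin n) where
  Adj u v := u ≠ v ∧ (((u.1 < s ∧ v.1 < t) ∨ (u.1 < s ∧ t ≤ v.1 ∧ (u.1 + 1 ≠ s ∨ (M v).1 < s)) ∨
    ((s ≤ u.1 ∧ u.1 < t) ∧ (s ≤ v.1 ∧ v.1 < t) ∧ P u ≠ v) ∨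
    (s ≤ u.1 ∧ t ≤ v.1 ∧ M u = v)) ∨
    ((v.1 < s ∧ u.1 < t) ∨ (v.1 < s ∧ t ≤ u.1 ∧ (v.1 + 1 ≠ s ∨ (M u).1 < s)) ∨
    ((s ≤ v.1 ∧ v.1 < t) ∧ (s ≤ u.1 ∧ u.1 < t) ∧ P v ≠ u) ∨
    (s ≤ v.1 ∧ t ≤ u.1 ∧ M v = u)))
  symm := ⟨fun _ _ h => ⟨h.1.symm, h.2.symm⟩⟩
  loopless := ⟨fun _ h => h.1 rfl⟩

section CG

variable {n : ℕ} {M P : Fin n → Fin n} {s t : ℕ}

theorem f1 (_hst : s ≤ t) (v u : Fin n) (hv : v.1 < s) (hu : u.1 < t) :
    (cg M P s t).Adj v u ↔ u ≠ v := by
  constructor
  · intro h
    exact h.1.symm
  · intro h
    exact ⟨h.symm, Or.inl (Or.inl ⟨hv, hu⟩)⟩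

theorem f2 (hst : s ≤ t) (v u : Fin n) (hv : v.1 < s) (hu : t ≤ u.1) :
    (cg M P s t).Adj v u ↔ (v.1 + 1 ≠ s ∨ (M u).1 < s) := by
  constructor
  · rintro ⟨_, (h | h | h | h) | (h | h | h | h)⟩
    · omega
    · exact h.2.2
    · omega
    · omega
    · omega
    · omega
    · omega
    · omega
  · intro h
    refine ⟨?_, Or.inl (Or.inr (Or.inl ⟨hv, hu, h⟩))⟩
    rintro rfl
    omega

theorem f3 (hP : ∀ x, P (P x) = x) (v u : Fin n) (hv : s ≤ v.1 ∧ v.1 < t)
    (hu : s ≤ u.1 ∧ u.1 < t) : (cg M P s t).Adj v u ↔ u ≠ v ∧ u ≠ P v := by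
  constructor
  · rintro ⟨h0, (h | h | h | h) | (h | h | h | h)⟩
    · omega
    · omega
    · exact ⟨h0.symm, h.2.2.symm⟩
    · omega
    · omega
    · omega
    · refine ⟨h0.symm, ?_⟩
      rintro rfl
      exact h.2.2 (hP v)
    · omega
  · intro h
    exact ⟨h.1.symm, Or.inl (Or.inr (Or.inr (Or.inl ⟨hv, hu, h.2.symm⟩)))⟩

theorem f4 (hM : IsPM M) (hst : s ≤ t) (v u : Fin n) (hv : s ≤ v.1) (hu : t ≤ u.1) :
    (cg M P s t).Adj v u ↔ M v = u := by
  constructor
  · rintro ⟨h0, (h | h | h | h) | (h | h | h | h)⟩
    · omega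
    · omega
    · omega
    · exact h.2.2
    · omega
    · omega
    · omega
    · rw [← h.2.2]
      exact (hM u).1
  · rintro rfl
    exact ⟨(hM v).2.symm, Or.inl (Or.inr (Or.inr (Or.inr ⟨hv, hu, rfl⟩)))⟩

end CG

/-- The core: a degree sequence that can realize `M` but not `N`. -/
theorem core {n : ℕ} (M N : Fin n → Fin n) (hM : IsPM M) (s t : ℕ) (hst : s ≤ t)
    (htn : t ≤ n) (hF : F N s t < F M s t) (hlast : ∀ v : Fin n, v.1 + 1 = t → s < t → (M v).1 < t) :
    ¬ Below N M := by
  classical
  -- the set `Q`
  let RI : Finset (Fin n) := univ.filter fun v => (s ≤ v.1 ∧ v.1 < t) ∧ t ≤ (M v).1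
  have hQ : ∃ Q : Finset (Fin n), (∀ v ∈ Q, (s ≤ v.1 ∧ v.1 < t)) ∧ (∀ v ∈ RI, v ∈ Q) ∧
      (∀ v ∈ Q, v ∉ RI → v.1 + 1 = t) ∧ Even Q.card := by
    rcases Nat.even_or_odd RI.card with he | ho
    · exact ⟨RI, fun v hv => (mem_filter.1 hv).2.1, fun v hv => hv, fun v h1 h2 => absurd h1 h2, he⟩
    · obtain ⟨r, hr⟩ := card_pos.1 ho.pos
      have hr1 := (mem_filter.1 hr).2.1
      let l : Fin n := ⟨t - 1, by omega⟩
      have hl : l.1 + 1 = t := by simp only [l]; omega
      have hlRI : l ∉ RI := by
        intro h
        have h1 := (mem_filter.1 h).2.2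
        have h2 := hlast l hl (by omega)
        omega
      refine ⟨insert l RI, ?_, fun v hv => mem_insert_of_mem hv, ?_, ?_⟩
      · intro v hv
        rcases mem_insert.1 hv with rfl | hv
        · constructor <;> omega
        · exact (mem_filter.1 hv).2.1
      · intro v hv hv2
        rcases mem_insert.1 hv with rfl | hv
        · exact hl
        · exact absurd hv hv2
      · rw [card_insert_of_notMem hlRI]
        exact ho.add_one
  obtain ⟨Q, hQ1, hQ2, hQ3, k, hk⟩ := hQ
  obtain ⟨P, hP1, hP2⟩ := pairing k Q hk
  have hPQ : ∀ v ∈ Q, P v ∈ Q := by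
    intro v hv
    rw [← hP2, hP1]
    exact ((hP2 v).2 hv).symm
  have hRI : ∀ v : Fin n, v ∈ RI ↔ (s ≤ v.1 ∧ v.1 < t) ∧ t ≤ (M v).1 := by
    intro v
    simp [RI]
  set G := cg M P s t with hG
  have hspos : 0 < s := by
    obtain ⟨v, hv⟩ := card_pos.1 (lt_of_le_of_lt (Nat.zero_le _) hF)
    have := (mem_filter.1 hv).2.2
    omega
  have hFle : F M s t + t ≤ n := by
    have h1 : (univ.filter fun v : Fin n => t ≤ v.1 ∧ (M v).1 < s).card ≤
        (univ.filter fun v : Fin n => ¬ v.1 < t).card := by
      apply card_le_card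
      intro v hv
      have := (mem_filter.1 hv).2.1
      simp only [mem_filter, mem_univ, true_and, not_lt]
      exact this
    have h2 := card_filter_add_card_filter_not (s := (univ : Finset (Fin n))) (fun v => v.1 < t)
    rw [card_lt t htn, card_univ, Fintype.card_fin] at h2
    unfold F
    omega
  have hMG : ∀ v, G.Adj v (M v) := by
    intro v
    rcases Nat.lt_or_ge v.1 s with h1 | h1
    · rcases Nat.lt_or_ge (M v).1 t with h2 | h2
      · rw [hG, f1 hst _ _ h1 h2]
        exact (hM v).2
      · rw [hG, f2 hst _ _ h1 h2]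
        right
        rw [(hM v).1]
        exact h1
    · rcases Nat.lt_or_ge (M v).1 s with h2 | h2
      · apply SimpleGraph.Adj.symm
        rcases Nat.lt_or_ge v.1 t with h3 | h3
        · rw [hG, f1 hst _ _ h2 h3]
          exact (hM v).2.symm
        · rw [hG, f2 hst _ _ h2 h3]
          right
          exact h2
      · rcases Nat.lt_or_ge (M v).1 t with h3 | h3
        · rcases Nat.lt_or_ge v.1 t with h4 | h4
          · rw [hG, f3 hP1 _ _ ⟨h1, h4⟩ ⟨h2, h3⟩]
            refine ⟨(hM v).2, fun h5 => ?_⟩
            have hvQ : v ∈ Q := by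
              rw [← hP2, ← h5]
              exact (hM v).2
            have hwQ : M v ∈ Q := by
              rw [h5]
              exact hPQ v hvQ
            have h6 := hQ3 v hvQ (by rw [hRI]; omega)
            have h7 := hQ3 (M v) hwQ (by rw [hRI, (hM v).1]; omega)
            apply (hM v).2
            ext
            omega
          · apply SimpleGraph.Adj.symm
            rw [hG, f4 hM hst _ _ h2 h4]
            exact (hM v).1
        · rw [hG, f4 hM hst _ _ h1 h3]
  -- degrees
  have hdeg : ∀ (H : SimpleGraph (Fin n)) v, (H.neighborSet v).ncard =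
      (univ.filter fun u => H.Adj v u).card := by
    intro H v
    rw [← Set.ncard_coe_finset]
    congr 1
    ext u
    simp
  have hd1 : ∀ v : Fin n, v.1 + 1 < s → (univ.filter fun u => G.Adj v u).card = n - 1 := by
    intro v hv
    have h1 : (univ.filter fun u => G.Adj v u) = univ.erase v := by
      ext u
      simp only [mem_filter, mem_univ, true_and, mem_erase, and_true]
      rcases Nat.lt_or_ge u.1 t with h2 | h2
      · rw [hG, f1 hst _ _ (by omega) h2]
      · rw [hG, f2 hst _ _ (by omega) h2]
        constructor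
        · rintro _ rfl
          omega
        · intro _
          left
          omega
    rw [h1, card_erase_of_mem (mem_univ _), card_univ, Fintype.card_fin]
  have hd2 : ∀ v : Fin n, v.1 + 1 = s → (univ.filter fun u => G.Adj v u).card =
      t - 1 + F M s t := by
    intro v hv
    have h1 : (univ.filter fun u => G.Adj v u) =
        ((univ.filter fun u : Fin n => u.1 < t).erase v) ∪
          (univ.filter fun u : Fin n => t ≤ u.1 ∧ (M u).1 < s) := by
      ext u
      simp only [mem_filter, mem_univ, true_and, mem_erase, mem_union]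
      rcases Nat.lt_or_ge u.1 t with h2 | h2
      · rw [hG, f1 hst _ _ (by omega) h2]
        constructor
        · intro h3
          exact Or.inl ⟨h3, h2⟩
        · rintro (h3 | h3)
          · exact h3.1
          · omega
      · rw [hG, f2 hst _ _ (by omega) h2]
        constructor
        · rintro (h3 | h3)
          · exact absurd hv h3
          · exact Or.inr ⟨h2, h3⟩
        · rintro (h3 | h3)
          · omega
          · exact Or.inr h3.2
    rw [h1, card_union_of_disjoint, card_erase_of_mem, card_lt t htn]
    · rfl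
    · simp only [mem_filter, mem_univ, true_and]
      omega
    · rw [disjoint_left]
      intro u h2 h3
      have h4 := (mem_filter.1 (mem_erase.1 h2).2).2
      have h5 := (mem_filter.1 h3).2.1
      omega
  have hd3 : ∀ v : Fin n, (s ≤ v.1 ∧ v.1 < t) → (univ.filter fun u => G.Adj v u).card +
      (if v ∈ Q ∧ v ∉ RI then 1 else 0) = t - 1 := by
    intro v hv
    have h1 : (univ.filter fun u => G.Adj v u) =
        (((univ.filter fun u : Fin n => u.1 < t).erase v).erase (P v)) ∪
          (univ.filter fun u : Fin n => t ≤ u.1 ∧ M v = u) := by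
      ext u
      simp only [mem_filter, mem_univ, true_and, mem_erase, mem_union]
      rcases Nat.lt_or_ge u.1 s with h2 | h2
      · rw [SimpleGraph.adj_comm, hG, f1 hst _ _ h2 hv.2]
        constructor
        · intro h3
          refine Or.inl ⟨?_, h3.symm, by omega⟩
          rintro rfl
          by_cases h4 : v ∈ Q
          · have := (hQ1 _ (hPQ v h4)).1
            omega
          · have h5 : P v = v := by
              by_contra h6
              exact h4 ((hP2 v).1 h6)
            exact h3 h5.symm
        · rintro (h3 | h3)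
          · exact h3.2.1.symm
          · omega
      · rcases Nat.lt_or_ge u.1 t with h3 | h3
        · rw [hG, f3 hP1 _ _ hv ⟨h2, h3⟩]
          constructor
          · intro h4
            exact Or.inl ⟨h4.2, h4.1, h3⟩
          · rintro (h4 | h4)
            · exact ⟨h4.2.1, h4.1⟩
            · omega
        · rw [hG, f4 hM hst _ _ hv.1 h3]
          constructor
          · intro h4
            exact Or.inr ⟨h3, h4⟩
          · rintro (h4 | h4)
            · omega
            · exact h4.2
    have hdis : Disjoint (((univ.filter fun u : Fin n => u.1 < t).erase v).erase (P v))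
        (univ.filter fun u : Fin n => t ≤ u.1 ∧ M v = u) := by
      rw [disjoint_left]
      intro u h2 h3
      have h4 := (mem_filter.1 (mem_erase.1 (mem_erase.1 h2).2).2).2
      have h5 := (mem_filter.1 h3).2.1
      omega
    have hvm : v ∈ (univ.filter fun u : Fin n => u.1 < t) := by
      simp only [mem_filter, mem_univ, true_and]
      exact hv.2
    rw [h1, card_union_of_disjoint hdis]
    by_cases h4 : v ∈ Q
    · have h5 : P v ∈ (univ.filter fun u : Fin n => u.1 < t).erase v := by
        simp only [mem_erase, mem_filter, mem_univ, true_and]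
        exact ⟨(hP2 v).2 h4, (hQ1 _ (hPQ v h4)).2⟩
      have h8 : s + 2 ≤ t := by
        have h9 := hQ1 _ (hPQ v h4)
        have h10 := (hP2 v).2 h4
        have h11 : (P v).1 ≠ v.1 := fun h => h10 (Fin.ext h)
        omega
      rw [card_erase_of_mem h5, card_erase_of_mem hvm, card_lt t htn]
      by_cases h6 : v ∈ RI
      · have h7 : (univ.filter fun u : Fin n => t ≤ u.1 ∧ M v = u) = {M v} := by
          ext u
          simp only [mem_filter, mem_univ, true_and, mem_singleton]
          constructor
          · rintro ⟨_, h⟩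
            exact h.symm
          · rintro rfl
            exact ⟨((hRI v).1 h6).2, rfl⟩
        rw [h7, card_singleton, if_neg (fun h => h.2 h6)]
        omega
      · have h7 : (univ.filter fun u : Fin n => t ≤ u.1 ∧ M v = u) = ∅ := by
          rw [filter_eq_empty_iff]
          rintro u _ ⟨h8, rfl⟩
          exact h6 ((hRI v).2 ⟨hv, h8⟩)
        rw [h7, card_empty, if_pos ⟨h4, h6⟩]
        omega
    · have h5 : P v = v := by
        by_contra h6
        exact h4 ((hP2 v).1 h6)
      rw [h5, erase_eq_of_notMem (notMem_erase _ _), card_erase_of_mem hvm, card_lt t htn]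
      have h6 : v ∉ RI := fun h => h4 (hQ2 v h)
      have h7 : (univ.filter fun u : Fin n => t ≤ u.1 ∧ M v = u) = ∅ := by
        rw [filter_eq_empty_iff]
        rintro u _ ⟨h8, rfl⟩
        exact h6 ((hRI v).2 ⟨hv, h8⟩)
      rw [h7, card_empty, if_neg (fun h => h4 h.1)]
      rfl
  have hd4 : ∀ v : Fin n, t ≤ v.1 → (univ.filter fun u => G.Adj v u).card = s := by
    intro v hv
    rcases Nat.lt_or_ge (M v).1 s with h1 | h1
    · have h2 : (univ.filter fun u => G.Adj v u) = (univ.filter fun u : Fin n => u.1 < s) := by
        ext u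
        simp only [mem_filter, mem_univ, true_and]
        rcases Nat.lt_or_ge u.1 s with h2 | h2
        · rw [SimpleGraph.adj_comm, hG, f2 hst _ _ h2 hv]
          exact ⟨fun _ => h2, fun _ => Or.inr h1⟩
        · rw [SimpleGraph.adj_comm, hG, f4 hM hst _ _ h2 hv]
          constructor
          · intro h3
            exfalso
            have h4 : M v = u := by rw [← h3]; exact (hM u).1
            rw [h4] at h1
            omega
          · intro h3
            omega
      rw [h2, card_lt s (by omega)]
    · let l : Fin n := ⟨s - 1, by omega⟩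
      have h2 : (univ.filter fun u => G.Adj v u) =
          insert (M v) ((univ.filter fun u : Fin n => u.1 < s).erase l) := by
        ext u
        simp only [mem_filter, mem_univ, true_and, mem_insert, mem_erase]
        rcases Nat.lt_or_ge u.1 s with h2 | h2
        · rw [SimpleGraph.adj_comm, hG, f2 hst _ _ h2 hv]
          constructor
          · rintro (h3 | h3)
            · refine Or.inr ⟨?_, h2⟩
              rintro rfl
              apply h3
              simp only [l]
              omega
            · omega
          · rintro (h3 | h3)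
            · rw [h3] at h2
              omega
            · left
              intro h4
              apply h3.1
              ext
              simp only [l]
              omega
        · rw [SimpleGraph.adj_comm, hG, f4 hM hst _ _ h2 hv]
          constructor
          · intro h3
            left
            rw [← h3]
            exact (hM u).1.symm
          · rintro (h3 | h3)
            · rw [h3]
              exact (hM v).1
            · omega
      rw [h2, card_insert_of_notMem, card_erase_of_mem, card_lt s (by omega)]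
      · omega
      · simp only [mem_filter, mem_univ, true_and, l]
        omega
      · simp only [mem_erase, mem_filter, mem_univ, true_and, not_and, not_lt]
        intro _
        exact h1
  intro hB
  have hanti : Antitone fun v => (G.neighborSet v).ncard := by
    intro u v huv
    have huv' : u.1 ≤ v.1 := huv
    simp only [hdeg]
    rcases Nat.lt_or_ge v.1 s with h1 | h1
    · rcases Nat.lt_or_ge (v.1 + 1) s with h2 | h2
      · rw [hd1 v h2, hd1 u (by omega)]
      · rw [hd2 v (by omega)]
        rcases Nat.lt_or_ge (u.1 + 1) s with h3 | h3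
        · rw [hd1 u h3]
          omega
        · rw [hd2 u (by omega)]
    · rcases Nat.lt_or_ge v.1 t with h2 | h2
      · have h3 := hd3 v ⟨h1, h2⟩
        rcases Nat.lt_or_ge u.1 s with h4 | h4
        · rcases Nat.lt_or_ge (u.1 + 1) s with h5 | h5
          · rw [hd1 u h5]
            omega
          · rw [hd2 u (by omega)]
            omega
        · have h5 := hd3 u ⟨h4, by omega⟩
          by_cases h6 : u ∈ Q ∧ u ∉ RI
          · have h7 := hQ3 u h6.1 h6.2
            have h8 : u = v := by
              ext
              omega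
            rw [h8]
          · rw [if_neg h6] at h5
            omega
      · rw [hd4 v h2]
        rcases Nat.lt_or_ge u.1 s with h4 | h4
        · rcases Nat.lt_or_ge (u.1 + 1) s with h5 | h5
          · rw [hd1 u h5]
            omega
          · rw [hd2 u (by omega)]
            omega
        · rcases Nat.lt_or_ge u.1 t with h5 | h5
          · have h6 := hd3 u ⟨h4, h5⟩
            by_cases h7 : u ∈ Q ∧ u ∉ RI
            · rw [if_pos h7] at h6
              have h8 : s + 2 ≤ t := by
                have h9 := hQ1 _ (hPQ u h7.1)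
                have h10 := (hP2 u).2 h7.1
                have h11 : (P u).1 ≠ u.1 := fun h => h10 (Fin.ext h)
                omega
              omega
            · rw [if_neg h7] at h6
              omega
          · rw [hd4 u h5]
  obtain ⟨H, hH1, hH2⟩ := hB (fun v => (G.neighborSet v).ncard) hanti (by
    intro v
    have : 0 < (G.neighborSet v).ncard := by
      rw [hdeg]
      exact card_pos.2 ⟨M v, by simpa using hMG v⟩
    exact this) ⟨G, fun _ => rfl, hMG⟩
  simp only [hdeg] at hH1
  let S : Finset (Fin n) := univ.filter fun u => u.1 < s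
  let I : Finset (Fin n) := univ.filter fun u => t ≤ u.1
  have hmS : ∀ u : Fin n, u ∈ S ↔ u.1 < s := by intro u; simp [S]
  have hmI : ∀ u : Fin n, u ∈ I ↔ t ≤ u.1 := by intro u; simp [I]
  let a : SimpleGraph (Fin n) → ℕ := fun H =>
    ∑ v ∈ S, (univ.filter fun u : Fin n => H.Adj v u ∧ u.1 < t).card
  let b : SimpleGraph (Fin n) → ℕ := fun H =>
    ∑ v ∈ S, (univ.filter fun u : Fin n => H.Adj v u ∧ ¬ u.1 < t).card
  let b' : SimpleGraph (Fin n) → ℕ := fun H =>
    ∑ v ∈ I, (univ.filter fun u : Fin n => H.Adj v u ∧ u.1 < s).card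
  let c : SimpleGraph (Fin n) → ℕ := fun H =>
    ∑ v ∈ I, (univ.filter fun u : Fin n => H.Adj v u ∧ ¬ u.1 < s).card
  have hab : ∀ H : SimpleGraph (Fin n), ∑ v ∈ S, (univ.filter fun u => H.Adj v u).card =
      a H + b H := by
    intro H
    simp only [a, b]
    rw [← sum_add_distrib]
    refine sum_congr rfl fun v _ => ?_
    rw [← filter_filter, ← filter_filter, card_filter_add_card_filter_not]
  have hbc : ∀ H : SimpleGraph (Fin n), ∑ v ∈ I, (univ.filter fun u => H.Adj v u).card =
      b' H + c H := by
    intro H
    simp only [b', c]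
    rw [← sum_add_distrib]
    refine sum_congr rfl fun v _ => ?_
    rw [← filter_filter, ← filter_filter, card_filter_add_card_filter_not]
  have hbb : ∀ H : SimpleGraph (Fin n), b H = b' H := by
    intro H
    simp only [b, b', card_filter]
    have h1 : ∑ v ∈ S, ∑ u, (if H.Adj v u ∧ ¬ u.1 < t then 1 else 0) =
        ∑ v ∈ S, ∑ u ∈ I, (if H.Adj v u then 1 else 0) := by
      refine sum_congr rfl fun v _ => ?_
      simp only [I]
      rw [sum_filter]
      refine sum_congr rfl fun u _ => ?_
      by_cases h2 : t ≤ u.1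
      · simp [h2, not_lt.2 h2]
      · simp [h2, not_le.1 h2]
    have h2 : ∑ v ∈ I, ∑ u, (if H.Adj v u ∧ u.1 < s then 1 else 0) =
        ∑ v ∈ I, ∑ u ∈ S, (if H.Adj v u then 1 else 0) := by
      refine sum_congr rfl fun v _ => ?_
      simp only [S]
      rw [sum_filter]
      refine sum_congr rfl fun u _ => ?_
      by_cases h2 : u.1 < s
      · simp [h2]
      · simp [h2]
    rw [h1, h2, sum_comm]
    refine sum_congr rfl fun v _ => sum_congr rfl fun u _ => ?_
    simp only [SimpleGraph.adj_comm]
  have haHG : a H ≤ a G := by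
    refine sum_le_sum fun v hv => card_le_card ?_
    intro u hu
    have h1 := (mem_filter.1 hu).2
    simp only [mem_filter, mem_univ, true_and]
    refine ⟨?_, h1.2⟩
    rw [hG, f1 hst _ _ ((hmS v).1 hv) h1.2]
    exact h1.1.ne'
  have hcG : F M s t + c G = I.card := by
    have h1 : c G = (univ.filter fun v : Fin n => t ≤ v.1 ∧ ¬ (M v).1 < s).card := by
      simp only [c]
      have h2 : (univ.filter fun v : Fin n => t ≤ v.1 ∧ ¬ (M v).1 < s).card =
          ∑ v ∈ I, if ¬ (M v).1 < s then 1 else 0 := by
        rw [← filter_filter, card_filter]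
      rw [h2]
      refine sum_congr rfl fun v hv => ?_
      have hv' := (hmI v).1 hv
      have h3 : (univ.filter fun u : Fin n => G.Adj v u ∧ ¬ u.1 < s) =
          (univ.filter fun u : Fin n => M v = u ∧ ¬ u.1 < s) := by
        ext u
        simp only [mem_filter, mem_univ, true_and, not_lt]
        constructor
        · rintro ⟨h4, h5⟩
          rw [SimpleGraph.adj_comm, hG, f4 hM hst _ _ h5 hv'] at h4
          refine ⟨?_, h5⟩
          rw [← h4]
          exact (hM u).1
        · rintro ⟨h4, h5⟩
          refine ⟨?_, h5⟩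
          rw [← h4]
          exact hMG v
      rw [h3]
      by_cases h4 : (M v).1 < s
      · rw [if_neg (not_not.2 h4), card_eq_zero, filter_eq_empty_iff]
        rintro u _ ⟨rfl, h5⟩
        exact h5 h4
      · rw [if_pos h4, card_eq_one]
        refine ⟨M v, ?_⟩
        ext u
        simp only [mem_filter, mem_univ, true_and, mem_singleton]
        constructor
        · rintro ⟨h5, _⟩
          exact h5.symm
        · rintro rfl
          exact ⟨rfl, h4⟩
    rw [h1]
    unfold F
    rw [← filter_filter, ← filter_filter, card_filter_add_card_filter_not]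
  have hcH : I.card ≤ F N s t + c H := by
    have h1 : (univ.filter fun v : Fin n => t ≤ v.1 ∧ ¬ (N v).1 < s).card ≤ c H := by
      simp only [c]
      have h2 : (univ.filter fun v : Fin n => t ≤ v.1 ∧ ¬ (N v).1 < s).card =
          ∑ v ∈ I, if ¬ (N v).1 < s then 1 else 0 := by
        rw [← filter_filter, card_filter]
      rw [h2]
      refine sum_le_sum fun v hv => ?_
      by_cases h4 : (N v).1 < s
      · rw [if_neg (not_not.2 h4)]
        exact Nat.zero_le _
      · rw [if_pos h4]
        apply card_pos.2
        exact ⟨N v, by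
          simp only [mem_filter, mem_univ, true_and]
          exact ⟨hH2 v, h4⟩⟩
    have h3 : F N s t + (univ.filter fun v : Fin n => t ≤ v.1 ∧ ¬ (N v).1 < s).card = I.card := by
      unfold F
      rw [← filter_filter, ← filter_filter, card_filter_add_card_filter_not]
    omega
  have e1 : a H + b H = a G + b G := by
    rw [← hab, ← hab]
    exact sum_congr rfl fun v _ => hH1 v
  have e2 : b' H + c H = b' G + c G := by
    rw [← hbc, ← hbc]
    exact sum_congr rfl fun v _ => hH1 v
  have e3 := hbb H
  have e4 := hbb G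
  omega

theorem F_succ {n : ℕ} (M : Fin n → Fin n) (hM : IsPM M) (s t : ℕ) (x : Fin n) (hx : x.1 = s) :
    F M (s + 1) t = F M s t + if t ≤ (M x).1 then 1 else 0 := by
  classical
  unfold F
  have h1 : (univ.filter fun v : Fin n => t ≤ v.1 ∧ (M v).1 < s + 1) =
      (univ.filter fun v : Fin n => t ≤ v.1 ∧ (M v).1 < s) ∪
        (univ.filter fun v : Fin n => t ≤ v.1 ∧ v = M x) := by
    ext v
    simp only [mem_filter, mem_univ, true_and, mem_union]
    have h2 : (M v).1 = s ↔ v = M x := by
      constructor
      · intro h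
        have : M v = x := Fin.ext (by omega)
        rw [← this]
        exact (hM v).1.symm
      · rintro rfl
        rw [(hM x).1, hx]
    rw [← h2]
    omega
  rw [h1, card_union_of_disjoint]
  · congr 1
    split_ifs with h2
    · rw [card_eq_one]
      refine ⟨M x, ?_⟩
      ext u
      simp only [mem_filter, mem_univ, true_and, mem_singleton]
      constructor
      · exact fun h => h.2
      · rintro rfl
        exact ⟨h2, rfl⟩
    · rw [card_eq_zero, filter_eq_empty_iff]
      rintro u _ ⟨h3, rfl⟩
      exact h2 h3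
  · rw [disjoint_left]
    intro u h2 h3
    have h4 := (mem_filter.1 h2).2.2
    have h5 := (mem_filter.1 h3).2.2
    rw [h5, (hM x).1] at h4
    omega

theorem F_pred {n : ℕ} (M : Fin n → Fin n) (s t : ℕ) (y : Fin n) (hy : y.1 = t) :
    F M s t = F M s (t + 1) + if (M y).1 < s then 1 else 0 := by
  classical
  unfold F
  have h1 : (univ.filter fun v : Fin n => t ≤ v.1 ∧ (M v).1 < s) =
      (univ.filter fun v : Fin n => t + 1 ≤ v.1 ∧ (M v).1 < s) ∪
        (univ.filter fun v : Fin n => v = y ∧ (M v).1 < s) := by
    ext v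
    simp only [mem_filter, mem_univ, true_and, mem_union]
    have h2 : v = y ↔ v.1 = t := by
      rw [Fin.ext_iff, hy]
    rw [h2]
    omega
  rw [h1, card_union_of_disjoint]
  · congr 1
    split_ifs with h2
    · rw [card_eq_one]
      refine ⟨y, ?_⟩
      ext u
      simp only [mem_filter, mem_univ, true_and, mem_singleton]
      constructor
      · exact fun h => h.1
      · rintro rfl
        exact ⟨rfl, h2⟩
    · rw [card_eq_zero, filter_eq_empty_iff]
      rintro u _ ⟨rfl, h3⟩
      exact h2 h3
  · rw [disjoint_left]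
    intro u h2 h3
    have h4 := (mem_filter.1 h2).2.1
    have h5 := (mem_filter.1 h3).2.1
    rw [h5] at h4
    omega

theorem exists_F_ne {n : ℕ} (M N : Fin n → Fin n) (hM : IsPM M) (hN : IsPM N) (h : M ≠ N) :
    ∃ s t, s ≤ t ∧ t ≤ n ∧ F M s t ≠ F N s t := by
  by_contra hcon
  push Not at hcon
  have key : ∀ u w : Fin n, w.1 < u.1 → (M u = w ↔ N u = w) := by
    intro u w hwu
    have a1 := hcon w.1 u.1 hwu.le u.2.le
    have a2 := hcon (w.1 + 1) u.1 hwu u.2.le
    have a3 := hcon w.1 (u.1 + 1) (by omega) u.2
    have a4 := hcon (w.1 + 1) (u.1 + 1) (by omega) u.2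
    have b1 := F_pred M w.1 u.1 u rfl
    have b2 := F_pred N w.1 u.1 u rfl
    have b3 := F_pred M (w.1 + 1) u.1 u rfl
    have b4 := F_pred N (w.1 + 1) u.1 u rfl
    rw [Fin.ext_iff, Fin.ext_iff]
    split_ifs at b1 b2 b3 b4 <;> omega
  apply h
  ext v
  rcases Nat.lt_trichotomy (M v).1 v.1 with h1 | h1 | h1
  · rw [(key v (M v) h1).1 rfl]
  · exact absurd (Fin.ext h1) (hM v).2
  · have h2 := (key (M v) v h1).1 (hM v).1
    have h3 : N v = M v := by
      rw [← h2]
      rw [(hN _).1, h2]
    rw [h3]

/-- One of two distinct perfect matchings is not below the other. -/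
theorem distinguish {n : ℕ} (M N : Fin n → Fin n) (hM : IsPM M) (hN : IsPM N) (h : M ≠ N) :
    ¬ Below N M ∨ ¬ Below M N := by
  classical
  obtain ⟨s0, t0, h1, h2, h3⟩ := exists_F_ne M N hM hN h
  have hex : ∃ k, ∃ s, s + k ≤ n ∧ F M s (s + k) ≠ F N s (s + k) :=
    ⟨t0 - s0, s0, by omega, by
      have : s0 + (t0 - s0) = t0 := by omega
      rw [this]
      exact h3⟩
  set k := Nat.find hex with hk
  obtain ⟨s, hs1, hs2⟩ := Nat.find_spec hex
  rw [← hk] at hs1 hs2
  have hmin : ∀ k' < k, ∀ s, s + k' ≤ n → F M s (s + k') = F N s (s + k') := by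
    intro k' hk' s hs
    by_contra hne
    exact Nat.find_min hex hk' ⟨s, hs, hne⟩
  have main : ∀ (M N : Fin n → Fin n), IsPM M → IsPM N →
      (∀ k' < k, ∀ s, s + k' ≤ n → F M s (s + k') = F N s (s + k')) →
      F N s (s + k) < F M s (s + k) → ¬ Below N M := by
    intro M N hM hN hmin hF
    refine core M N hM s (s + k) (by omega) hs1 hF ?_
    intro v hv hlt
    let x : Fin n := ⟨s, by omega⟩
    have a1 := F_succ M hM s (s + k) x rfl
    have a2 := F_succ N hN s (s + k) x rfl
    have a3 := hmin (k - 1) (by omega) (s + 1) (by omega)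
    have a4 : s + 1 + (k - 1) = s + k := by omega
    rw [a4] at a3
    have b1 := F_pred M s v.1 v rfl
    have b2 := F_pred N s v.1 v rfl
    rw [hv] at b1 b2
    have b3 := hmin (k - 1) (by omega) s (by omega)
    have b4 : s + (k - 1) = v.1 := by omega
    rw [b4] at b3
    rcases Nat.lt_or_ge 1 k with hk1 | hk1
    · have c1 := F_pred M (s + 1) v.1 v rfl
      have c2 := F_pred N (s + 1) v.1 v rfl
      rw [hv] at c1 c2
      have c3 := hmin (k - 2) (by omega) (s + 1) (by omega)
      have c4 : s + 1 + (k - 2) = v.1 := by omega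
      rw [c4] at c3
      split_ifs at a1 a2 b1 b2 c1 c2 <;> omega
    · have hvx : v = x := Fin.ext (by simp only [x]; omega)
      have d1 := (hN v).2
      have d2 : (N v).1 ≠ v.1 := fun h => d1 (Fin.ext h)
      rw [hvx] at b1 b2 d2
      have hx : x.1 = s := rfl
      rw [hvx]
      split_ifs at a1 a2 b1 b2 <;> omega
  rcases Nat.lt_or_gt_of_ne hs2 with hlt | hgt
  · right
    exact main N M hN hM (fun k' hk' s hs => (hmin k' hk' s hs).symm) hlt
  · left
    exact main M N hM hN hmin hgt

/-- **Main theorem.** The realizability preorder on the perfect matchings of the complete graph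
on `n` labelled vertices is antisymmetric, for every `n`. -/
theorem result (n : ℕ) (M N : Fin n → Fin n) (hM : IsPM M) (hN : IsPM N)
    (h1 : Below M N) (h2 : Below N M) : M = N := by
  by_contra h
  rcases distinguish M N hM hN h with h3 | h3
  · exact h3 h2
  · exact h3 h1

end Pool.Agent.Results.MP_cd59f5_co.Antisymmetry
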